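import Mathlib

/-!
# Equilibrium measures that are Hausdorff measures (project EHM)

The Cantor set is the set of points all of whose images under the maps `x ↦ N² T_N(x)` stay in
`[-1,1]`, with `N = N 0, N 1, …` where `N 0 = 16`, `N (k+1) = 2 (N k)²` and `T_N` the Chebyshev
polynomial.  Everything is expressed with the inverse branches.
-/

open MeasureTheory

namespace Pool.Agent.W401.EHM

/-- The degrees. -/
def N : ℕ → ℕ
  | 0 => 16
  | k + 1 => 2 * N k ^ 2

/-- Inverse branches of `x ↦ N² T_N(x)`. -/
noncomputable def g (k j : ℕ) (y : ℝ) : ℝ :=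
  Real.cos ((j * Real.pi + Real.arccos ((-1) ^ j * (y / (N k : ℝ) ^ 2))) / N k)

/-- The map `x ↦ N² T_N(x)` on `[-1,1]`. -/
noncomputable def F (k : ℕ) (x : ℝ) : ℝ := (N k : ℝ) ^ 2 * Real.cos (N k * Real.arccos x)

/-- Sequences of digits. -/
abbrev Om : Type := ∀ k : ℕ, Fin (N k)

/-- Finite compositions of inverse branches, starting with the digit of index `n`. -/
noncomputable def app : ℕ → ℕ → Om → ℝ
  | 0, _, _ => 0
  | m + 1, n, ω => g n (ω n) (app m (n + 1) ω)

/-- The point coded by the digits of index at least `n`. -/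
noncomputable def cod (n : ℕ) (ω : Om) : ℝ := Filter.limsup (fun m => app m n ω) Filter.atTop

/-- The uniform measure on the digits of index `k`. -/
noncomputable def unif (k : ℕ) : Measure (Fin (N k)) := (N k : ENNReal)⁻¹ • Measure.count

theorem N_ge (k : ℕ) : 16 ≤ N k := by
  induction k with
  | zero => exact le_refl _
  | succ k ih =>
    show 16 ≤ 2 * N k ^ 2
    nlinarith

theorem N_pos (k : ℕ) : 0 < N k := by have := N_ge k; omega

theorem N_succ (k : ℕ) : N (k + 1) = 2 * N k ^ 2 := rfl

/-- The product formula for the degrees. -/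
theorem N_prod (k : ℕ) : 16 * ∏ j ∈ Finset.range k, (2 * N j) = N k := by
  induction k with
  | zero => rfl
  | succ k ih =>
    rw [Finset.prod_range_succ, ← mul_assoc, ih, N_succ]; ring

theorem le_N (k : ℕ) : k ≤ N k := by
  induction k with
  | zero => omega
  | succ k ih =>
    have := N_ge k
    rw [N_succ]; nlinarith

instance (k : ℕ) : NeZero (N k) := ⟨(N_pos k).ne'⟩

instance (k : ℕ) : IsProbabilityMeasure (unif k) := by
  constructor
  unfold unif
  have h : (N k : ENNReal) ≠ 0 := by exact_mod_cast (N_pos k).ne'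
  simp [Measure.count_apply]
  exact ENNReal.inv_mul_cancel h (ENNReal.natCast_ne_top _)

/-- The product measure on the sequences of digits. -/
noncomputable def Pr : Measure Om := Measure.infinitePi unif

instance : IsProbabilityMeasure Pr := by unfold Pr; infer_instance

/-- The measure carried by the points coded by the digits of index at least `n`. -/
noncomputable def nu (n : ℕ) : Measure ℝ := Pr.map (cod n)

/-- The Cantor set. -/
def KK : Set ℝ := Set.range (cod 0)

/-- Its logarithmic potentials. -/
noncomputable def U (n : ℕ) (x : ℝ) : ℝ := ∫ y, Real.log |x - y| ∂(nu n)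

theorem g_cont (k j : ℕ) : Continuous (g k j) := by
  unfold g
  fun_prop

theorem g_mem (k j : ℕ) (y : ℝ) : g k j y ∈ Set.Icc (-1 : ℝ) 1 :=
  ⟨Real.neg_one_le_cos _, Real.cos_le_one _⟩

end Pool.Agent.W401.EHM
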