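import Pool.Agent.W401.EHM.Stm

open MeasureTheory

namespace Pool.Agent.W401.EHM

/-- The final assembly of project EHM. -/
theorem main (c : COD) (hf : HFN) (mk : MKM) (dm : DIM) (kr : KER) (ei : EINT) (mn : MIN) :
    ¬ (∀ (K : Set ℝ), IsCompact K →
  ∀ (h : NNReal → NNReal), Continuous h → Monotone h → h 0 = 0 →
  ∀ (μ : Measure ℝ), IsProbabilityMeasure μ → μ Kᶜ = 0 →
  (∃ ν : Measure ℝ, IsProbabilityMeasure ν ∧ ν Kᶜ = 0 ∧
      (∫⁻ x, ∫⁻ y, (if x = y then (⊤ : ENNReal)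
          else ENNReal.ofReal (Real.log (Metric.diam K + 1) - Real.log (dist x y))) ∂ν ∂ν) < ⊤) →
  (∀ ν : Measure ℝ, IsProbabilityMeasure ν → ν Kᶜ = 0 →
      (∫⁻ x, ∫⁻ y, (if x = y then (⊤ : ENNReal)
          else ENNReal.ofReal (Real.log (Metric.diam K + 1) - Real.log (dist x y))) ∂μ ∂μ)
        ≤ (∫⁻ x, ∫⁻ y, (if x = y then (⊤ : ENNReal)
          else ENNReal.ofReal (Real.log (Metric.diam K + 1) - Real.log (dist x y))) ∂ν ∂ν)) →
  μ = (Measure.mkMetric (fun r : ENNReal => ((h r.toNNReal : NNReal) : ENNReal))).restrict K →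
  dimH K = 0) := by
  intro H
  obtain ⟨h, hc, hm, h0, hb, hs⟩ := hf
  have hp := c.prob 0
  have k0 := kr KK c.compact (nu 0) hp c.nu_KK
  refine dm (H KK c.compact h hc hm h0 (nu 0) hp c.nu_KK ⟨nu 0, hp, c.nu_KK, ?_⟩ ?_
    (mk h hm h0 hb hs))
  · rw [k0.2 ei]; exact ENNReal.ofReal_lt_top
  · intro ν hν hK
    have k1 := kr KK c.compact ν hν hK
    by_cases hfin : (∫⁻ x, ∫⁻ y, (if x = y then (⊤ : ENNReal)
          else ENNReal.ofReal (Real.log (Metric.diam KK + 1) - Real.log (dist x y))) ∂ν ∂ν) < ⊤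
    · rw [k0.2 ei, k1.2 (k1.1 hfin)]
      exact ENNReal.ofReal_le_ofReal (by linarith [mn ν hν hK (k1.1 hfin)])
    · rw [not_lt, top_le_iff] at hfin
      rw [hfin]; exact le_top

end Pool.Agent.W401.EHM
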