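import Pool.Agent.W401.EHM.Defs

/-!
# Statements of the steps (project EHM)
-/

open MeasureTheory

namespace Pool.Agent.W401.EHM

/-! ## Inverse branches -/

def G1 : Prop := ∀ k j : ℕ, j < N k → ∀ y ∈ Set.Icc (-1 : ℝ) 1, F k (g k j y) = y

def G2 : Prop := ∀ k i j : ℕ, i < j → j < N k → ∀ y ∈ Set.Icc (-1 : ℝ) 1,
  ∀ z ∈ Set.Icc (-1 : ℝ) 1, ((j : ℝ) - i) ^ 2 / (2 * (N k : ℝ) ^ 2) ≤ |g k i y - g k j z|

def G3 : Prop := ∀ k j : ℕ, j < N k → ∀ y ∈ Set.Icc (-1 : ℝ) 1, ∀ z ∈ Set.Icc (-1 : ℝ) 1,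
  |y - z| ≤ (N k : ℝ) ^ 4 * |g k j y - g k j z|

def G4 : Prop := ∀ k j : ℕ, ∀ y ∈ Set.Icc (-1 : ℝ) 1, ∀ z ∈ Set.Icc (-1 : ℝ) 1,
  |g k j y - g k j z| ≤ 2 / (N k : ℝ) ^ 3 * |y - z|

def G5 : Prop := ∀ k : ℕ, ∀ x ∈ Set.Icc (-1 : ℝ) 1, ∀ s ∈ Set.Icc (-1 : ℝ) 1, F k x ≠ s →
  ∑ j ∈ Finset.range (N k), Real.log |x - g k j s|
    = Real.log |F k x - s| - Real.log ((N k : ℝ) ^ 2 * 2 ^ (N k - 1))

/-! ## Coding -/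

def COD : Prop := (∀ n, Continuous (cod n)) ∧ (∀ n ω, cod n ω ∈ Set.Icc (-1 : ℝ) 1) ∧
  (∀ n ω, cod n ω = g n (ω n) (cod (n + 1) ω)) ∧
  (∀ n (ω ω' : Om), (∀ k, n ≤ k → ω k = ω' k) → cod n ω = cod n ω')

def SEP : Prop := ∀ (n m : ℕ) (ω ω' : Om), n ≤ m → (∀ k, n ≤ k → k < m → ω k = ω' k) →
  (((ω m : ℕ) : ℝ) - ((ω' m : ℕ) : ℝ)) ^ 2 / (2 * (N m : ℝ) ^ 2)
    ≤ (∏ k ∈ Finset.Ico n m, (N k : ℝ) ^ 4) * |cod n ω - cod n ω'|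

def CON : Prop := ∀ (n m : ℕ) (ω ω' : Om), n ≤ m → (∀ k, n ≤ k → k < m → ω k = ω' k) →
  |cod n ω - cod n ω'| ≤ 2 * ∏ k ∈ Finset.Ico n m, (2 / (N k : ℝ) ^ 3)

/-! ## Measures -/

def CYL : Prop := ∀ (n m : ℕ) (d : Om) (a b : ℕ), n ≤ m → a ≤ b →
  Pr {ω : Om | (∀ k, n ≤ k → k < m → ω k = d k) ∧ a ≤ (ω m : ℕ) ∧ (ω m : ℕ) ≤ b}
    ≤ ENNReal.ofReal (((b : ℝ) - a + 1) / ∏ k ∈ Finset.Ico n (m + 1), (N k : ℝ))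

def REC : Prop := ∀ n : ℕ,
  nu n = ∑ j ∈ Finset.range (N n), (N n : ENNReal)⁻¹ • (nu (n + 1)).map (g n j)

def HOL : Prop := ∀ (n : ℕ) (x r : ℝ), 0 < r →
  nu n (Set.Icc x (x + r)) ≤ ENNReal.ofReal (10 * r ^ ((1 : ℝ) / 10))

def FLAT : Prop := ∀ (n : ℕ) (x : ℝ),
  nu 0 (Set.Icc x (x + 2 * ∏ k ∈ Finset.range n, (2 / (N k : ℝ) ^ 3)))
    ≤ ENNReal.ofReal (1 / ∏ k ∈ Finset.range n, (N k : ℝ))

/-! ## Potentials -/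

def POT : Prop := ∀ ν : Measure ℝ, IsProbabilityMeasure ν → ν (Set.Icc (-1 : ℝ) 1)ᶜ = 0 →
  (∀ x r : ℝ, 0 < r → ν (Set.Icc x (x + r)) ≤ ENNReal.ofReal (10 * r ^ ((1 : ℝ) / 10))) →
  ∀ x ∈ Set.Icc (-1 : ℝ) 1, ν {x} = 0 ∧ Integrable (fun y => Real.log |x - y|) ν ∧
    ∫ y, |(Real.log |x - y|)| ∂ν ≤ 1000

def URE : Prop := ∀ n : ℕ, ∀ x ∈ Set.Icc (-1 : ℝ) 1, F n x ∈ Set.Icc (-1 : ℝ) 1 →
  U n x = (U (n + 1) (F n x) - Real.log ((N n : ℝ) ^ 2 * 2 ^ (N n - 1))) / N n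

def UCO : Prop := ∀ x ∈ KK, ∀ y ∈ KK, U 0 x = U 0 y

/-- The logarithmic kernel is integrable for `μ × ν` and the diagonal is a null set. -/
def Fin2 (μ ν : Measure ℝ) : Prop := (μ.prod ν) {p : ℝ × ℝ | p.1 = p.2} = 0 ∧
  Integrable (fun p : ℝ × ℝ => Real.log |p.1 - p.2|) (μ.prod ν)

/-- Mutual energy. -/
noncomputable def I2 (μ ν : Measure ℝ) : ℝ := ∫ p : ℝ × ℝ, Real.log |p.1 - p.2| ∂(μ.prod ν)

def NEG : Prop := ∀ μ ν : Measure ℝ, IsProbabilityMeasure μ → IsProbabilityMeasure ν →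
  μ (Set.Icc (-1 : ℝ) 1)ᶜ = 0 → ν (Set.Icc (-1 : ℝ) 1)ᶜ = 0 → Fin2 μ μ → Fin2 ν ν → Fin2 μ ν →
  I2 μ μ + I2 ν ν - 2 * I2 μ ν ≤ 0

def EINT : Prop := Fin2 (nu 0) (nu 0)

def MIN : Prop := ∀ ν : Measure ℝ, IsProbabilityMeasure ν → ν KKᶜ = 0 → Fin2 ν ν →
  I2 ν ν ≤ I2 (nu 0) (nu 0)

def KER : Prop := ∀ K : Set ℝ, IsCompact K → ∀ ν : Measure ℝ, IsProbabilityMeasure ν → ν Kᶜ = 0 →
  ((∫⁻ x, ∫⁻ y, (if x = y then (⊤ : ENNReal)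
      else ENNReal.ofReal (Real.log (Metric.diam K + 1) - Real.log (dist x y))) ∂ν ∂ν) < ⊤
    → Fin2 ν ν) ∧
  (Fin2 ν ν → (∫⁻ x, ∫⁻ y, (if x = y then (⊤ : ENNReal)
      else ENNReal.ofReal (Real.log (Metric.diam K + 1) - Real.log (dist x y))) ∂ν ∂ν)
      = ENNReal.ofReal (Real.log (Metric.diam K + 1) - I2 ν ν))

/-! ## Hausdorff measure -/

def HFN : Prop := ∃ h : NNReal → NNReal, Continuous h ∧ Monotone h ∧ h 0 = 0 ∧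
  (∀ s : Set ℝ, Metric.ediam s ≤ 1 → nu 0 s ≤ (h (Metric.ediam s).toNNReal : ENNReal)) ∧
  (∀ (r : NNReal) (c : ENNReal), (∀ x : ℝ, nu 0 (Set.Icc x (x + r)) ≤ c) → (h r : ENNReal) ≤ c)

def MKM : Prop := ∀ h : NNReal → NNReal, Monotone h → h 0 = 0 →
  (∀ s : Set ℝ, Metric.ediam s ≤ 1 → nu 0 s ≤ (h (Metric.ediam s).toNNReal : ENNReal)) →
  (∀ (r : NNReal) (c : ENNReal), (∀ x : ℝ, nu 0 (Set.Icc x (x + r)) ≤ c) → (h r : ENNReal) ≤ c) →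
  nu 0 = (Measure.mkMetric (fun r : ENNReal => ((h r.toNNReal : NNReal) : ENNReal))).restrict KK

def DIM : Prop := dimH KK ≠ 0

/-! ## Small consequences of COD -/

theorem COD.meas (h : COD) (n : ℕ) : Measurable (cod n) := (h.1 n).measurable

theorem COD.prob (h : COD) (n : ℕ) : IsProbabilityMeasure (nu n) :=
  Measure.isProbabilityMeasure_map (h.meas n).aemeasurable

theorem COD.compact (h : COD) : IsCompact KK := isCompact_range (h.1 0)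

theorem COD.sub (h : COD) : KK ⊆ Set.Icc (-1 : ℝ) 1 := by
  rintro _ ⟨ω, rfl⟩; exact h.2.1 0 ω

theorem COD.nu_apply (h : COD) (n : ℕ) {s : Set ℝ} (hs : MeasurableSet s) :
    nu n s = Pr (cod n ⁻¹' s) := Measure.map_apply (h.meas n) hs

theorem COD.supp (h : COD) (n : ℕ) : nu n (Set.Icc (-1 : ℝ) 1)ᶜ = 0 := by
  rw [h.nu_apply n measurableSet_Icc.compl]
  convert measure_empty (μ := Pr)
  ext ω
  simp only [Set.mem_preimage, Set.mem_compl_iff, Set.mem_empty_iff_false, iff_false, not_not]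
  exact h.2.1 n ω

theorem COD.nu_KK (h : COD) : nu 0 KKᶜ = 0 := by
  rw [h.nu_apply 0 h.compact.measurableSet.compl]
  convert measure_empty (μ := Pr)
  ext ω
  simp only [Set.mem_preimage, Set.mem_compl_iff, Set.mem_empty_iff_false, iff_false, not_not]
  exact ⟨ω, rfl⟩

end Pool.Agent.W401.EHM
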